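import Pool.Agent.Helper21.CU.St

/-!
# Project CU (MP_ad0dc2_nt), module CNT: the mean value of the number of roots
-/

set_option autoImplicit false

namespace Pool.Agent.Helper47.CU

open Finset Pool.Agent.Helper21.CU

/-- every prime divisor of `t` prime to `3 k` divides `t` twice -/
def TT (k : ℤ) (t : ℕ) : Prop := ∀ p : ℕ, p.Prime → p ∣ t → ¬ (p : ℤ) ∣ 3 * k → p ^ 2 ∣ t

theorem dvd_iff (k : ℤ) (p : ℕ) : (p : ℤ) ∣ 3 * k ↔ p ∣ 3 * k.natAbs := by
  rw [Int.natCast_dvd, Int.natAbs_mul]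
  rfl

theorem TT_mul {k : ℤ} {a b : ℕ} (hab : a.Coprime b) : TT k (a * b) ↔ TT k a ∧ TT k b := by
  constructor
  · intro h
    constructor
    · intro p hp hpa hpk
      have h1 := h p hp (hpa.mul_right b) hpk
      have h2 : Nat.Coprime (p ^ 2) b := (Nat.Coprime.coprime_dvd_left hpa hab).pow_left 2
      exact h2.dvd_of_dvd_mul_right h1
    · intro p hp hpb hpk
      have h1 := h p hp (hpb.mul_left a) hpk
      have h2 : Nat.Coprime (p ^ 2) a := (Nat.Coprime.coprime_dvd_left hpb hab.symm).pow_left 2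
      exact h2.dvd_of_dvd_mul_left h1
  · rintro ⟨h1, h2⟩ p hp hpab hpk
    rcases (Nat.Prime.dvd_mul hp).1 hpab with h | h
    · exact (h1 p hp h hpk).mul_right b
    · exact (h2 p hp h hpk).mul_left a

theorem TT_one (k : ℤ) : TT k 1 := by
  intro p hp h _
  exact absurd (Nat.dvd_one.1 h) hp.one_lt.ne'

/-- the decomposition `s = t s₁` -/
theorem decomp (k : ℤ) (s : ℕ) (hs : s ≠ 0) : ∃ t s₁ : ℕ, s = t * s₁ ∧ t.Coprime s₁ ∧ Squarefree s₁ ∧
    s₁.Coprime (3 * k.natAbs) ∧ TT k t := by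
  induction s using Nat.recOnPosPrimePosCoprime with
  | zero => exact absurd rfl hs
  | one => exact ⟨1, 1, rfl, Nat.coprime_one_right 1, squarefree_one, Nat.coprime_one_left _, TT_one k⟩
  | prime_pow p n hp hn =>
    by_cases h : n = 1 ∧ ¬ (p : ℤ) ∣ 3 * k
    · obtain ⟨h1, h2⟩ := h
      refine ⟨1, p ^ n, (one_mul _).symm, Nat.coprime_one_left _, ?_, ?_, TT_one k⟩
      · rw [h1, pow_one]
        exact hp.prime.squarefree
      · rw [h1, pow_one]
        rw [dvd_iff] at h2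
        exact (Nat.Prime.coprime_iff_not_dvd hp).2 h2
    · refine ⟨p ^ n, 1, (mul_one _).symm, Nat.coprime_one_right _, squarefree_one, Nat.coprime_one_left _, ?_⟩
      intro q hq hqp hqk
      have h1 : q ∣ p := hq.dvd_of_dvd_pow hqp
      have h2 : q = p := (Nat.prime_dvd_prime_iff_eq hq hp).1 h1
      subst h2
      apply pow_dvd_pow
      by_contra h3
      exact h ⟨by omega, hqk⟩
  | coprime a b ha hb hab iha ihb =>
    obtain ⟨t, s₁, h1, h2, h3, h4, h5⟩ := iha (by omega)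
    obtain ⟨t', s₁', h1', h2', h3', h4', h5'⟩ := ihb (by omega)
    have ct : t ∣ a := ⟨s₁, h1⟩
    have cs : s₁ ∣ a := ⟨t, by rw [h1, mul_comm]⟩
    have ct' : t' ∣ b := ⟨s₁', h1'⟩
    have cs' : s₁' ∣ b := ⟨t', by rw [h1', mul_comm]⟩
    have c1 : t.Coprime s₁' := Nat.Coprime.coprime_dvd_left ct (Nat.Coprime.coprime_dvd_right cs' hab)
    have c2 : t'.Coprime s₁ := Nat.Coprime.coprime_dvd_left ct' (Nat.Coprime.coprime_dvd_right cs hab.symm)
    have c3 : s₁.Coprime s₁' := Nat.Coprime.coprime_dvd_left cs (Nat.Coprime.coprime_dvd_right cs' hab)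
    have c4 : t.Coprime t' := Nat.Coprime.coprime_dvd_left ct (Nat.Coprime.coprime_dvd_right ct' hab)
    refine ⟨t * t', s₁ * s₁', ?_, ?_, ?_, ?_, ?_⟩
    · calc a * b = (t * s₁) * (t' * s₁') := by rw [← h1, ← h1']
        _ = t * t' * (s₁ * s₁') := by ring
    · exact Nat.Coprime.mul_left (Nat.Coprime.mul_right h2 c1) (Nat.Coprime.mul_right c2 h2')
    · exact (Nat.squarefree_mul c3).2 ⟨h3, h3'⟩
    · exact Nat.Coprime.mul_left h4 h4'
    · exact (TT_mul c4).2 ⟨h5, h5'⟩

theorem geo (q : ℝ) (h0 : 0 ≤ q) (h1 : q ≤ 1 / 2) (n : ℕ) : ∑ i ∈ range n, q ^ i ≤ 2 := by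
  have h2 := geom_sum_mul_neg q n
  have h3 : 0 ≤ ∑ i ∈ range n, q ^ i := Finset.sum_nonneg fun i _ => pow_nonneg h0 i
  have h4 : 0 ≤ q ^ n := pow_nonneg h0 n
  nlinarith

theorem hCNT (hSQ : StSQ) (hCRT : StCRT) (hPP : StPP) (hMUL : StMUL) : StCNT := by
  classical
  intro k hk
  have hk0 : k ≠ 0 := by
    intro h
    exact hk 0 (by rw [h]; norm_num)
  obtain ⟨C, hC, hSQ⟩ := hSQ k hk
  set K : ℝ := (((3 * k.natAbs) ^ 3 : ℕ) : ℝ) with hK
  have hK0 : 0 ≤ K := Nat.cast_nonneg _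
  set Pk : Finset ℕ := (3 * k.natAbs).primeFactors with hPk
  set B : ℝ := (1 + K) ^ #Pk * Real.exp 12 with hB
  have hB0 : 0 < B := by positivity
  have hR1 : (R k 1).card = 1 := by
    have : R k 1 = {0} := by
      ext v
      unfold R
      rw [Finset.mem_filter, Finset.mem_range, Finset.mem_singleton]
      constructor
      · rintro ⟨h, _⟩
        omega
      · rintro rfl
        exact ⟨by omega, by simp⟩
    rw [this, Finset.card_singleton]
  -- the multiplicative function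
  set f : ℕ → ℝ := fun n => if TT k n then ((R k n).card : ℝ) / n else 0 with hf
  have hf0 : ∀ n, 0 ≤ f n := fun n => by
    rw [hf]
    dsimp only
    split_ifs
    · positivity
    · exact le_rfl
  have hf1 : f 1 = 1 := by
    rw [hf]
    dsimp only
    rw [if_pos (TT_one k), hR1]
    norm_num
  have hfm : ∀ a b : ℕ, a.Coprime b → f (a * b) = f a * f b := by
    intro a b hab
    rcases Nat.eq_zero_or_pos a with ha | ha
    · subst ha
      have hb : b = 1 := by rwa [Nat.coprime_zero_left] at hab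
      subst hb
      rw [hf1, zero_mul, mul_one]
    rcases Nat.eq_zero_or_pos b with hb | hb
    · subst hb
      have ha : a = 1 := by rwa [Nat.coprime_zero_right] at hab
      subst ha
      rw [hf1, mul_zero, one_mul]
    rw [hf]
    dsimp only
    by_cases h1 : TT k a
    · by_cases h2 : TT k b
      · rw [if_pos h1, if_pos h2, if_pos ((TT_mul hab).2 ⟨h1, h2⟩), (hCRT k a b ha hb hab).1]
        push_cast
        rw [div_mul_div_comm]
      · rw [if_neg h2, if_neg (fun h => h2 ((TT_mul hab).1 h).2), mul_zero]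
    · rw [if_neg h1, if_neg (fun h => h1 ((TT_mul hab).1 h).1), zero_mul]
  -- the sum over `t`
  have hT : ∀ x : ℕ, ∑ t ∈ Icc 1 x, f t ≤ B := by
    intro x
    set P : Finset ℕ := (Icc 1 x).filter Nat.Prime with hP
    have hPp : ∀ p ∈ P, p.Prime := fun p hp => (Finset.mem_filter.1 hp).2
    have h1 := hMUL f hf0 hf1 hfm P x hPp
    have h2 : (Icc 1 x).filter (fun a : ℕ => ∀ p : ℕ, p.Prime → p ∣ a → p ∈ P) = Icc 1 x := by
      rw [Finset.filter_eq_self]
      intro a ha p hp hpa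
      rw [Finset.mem_Icc] at ha
      rw [hP, Finset.mem_filter, Finset.mem_Icc]
      exact ⟨⟨hp.one_lt.le, (Nat.le_of_dvd (by omega) hpa).trans ha.2⟩, hp⟩
    have h1' : ∑ t ∈ Icc 1 x, f t ≤ ∏ p ∈ P, (1 + ∑ j ∈ Icc 1 x, f (p ^ j)) := by
      rw [h2] at h1
      exact h1
    refine h1'.trans ?_
    -- the factors
    have hq : ∀ p ∈ P, 0 ≤ (1 / (p : ℝ)) ∧ (1 / (p : ℝ)) ≤ 1 / 2 := by
      intro p hp
      have h3 : (2 : ℝ) ≤ p := by exact_mod_cast (hPp p hp).two_le
      exact ⟨by positivity, one_div_le_one_div_of_le (by norm_num) h3⟩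
    have fbad : ∀ p ∈ P, (p : ℤ) ∣ 3 * k → 1 + ∑ j ∈ Icc 1 x, f (p ^ j) ≤ 1 + K := by
      intro p hp hpk
      obtain ⟨h3, h4⟩ := hq p hp
      have h5 : ∀ j ∈ Icc 1 x, f (p ^ j) ≤ K * (1 / (p : ℝ)) ^ j := by
        intro j hj
        rw [Finset.mem_Icc] at hj
        have h6 := (hPP k hk0 p j (hPp p hp) hj.1).2 hpk
        have h7 : ((R k (p ^ j)).card : ℝ) ≤ K := by
          rw [hK]
          exact_mod_cast h6
        rw [hf]
        dsimp only
        split_ifs
        · rw [one_div, inv_pow, ← div_eq_mul_inv]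
          push_cast
          exact div_le_div_of_nonneg_right h7 (by positivity)
        · positivity
      have h8 : ∑ j ∈ Icc 1 x, K * (1 / (p : ℝ)) ^ j ≤ K := by
        have e1 : Icc 1 x = Ico 1 (x + 1) := by
          ext j
          rw [Finset.mem_Icc, Finset.mem_Ico]
          omega
        rw [e1, Finset.sum_Ico_eq_sum_range]
        have e2 : ∑ i ∈ range (x + 1 - 1), K * (1 / (p : ℝ)) ^ (1 + i) =
            K * (1 / (p : ℝ)) * ∑ i ∈ range (x + 1 - 1), (1 / (p : ℝ)) ^ i := by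
          rw [Finset.mul_sum]
          refine Finset.sum_congr rfl fun i _ => ?_
          rw [pow_add, pow_one]
          ring
        rw [e2]
        have h9 := geo _ h3 h4 (x + 1 - 1)
        have h10 : K * (1 / (p : ℝ)) * ∑ i ∈ range (x + 1 - 1), (1 / (p : ℝ)) ^ i ≤
            K * (1 / (p : ℝ)) * 2 := mul_le_mul_of_nonneg_left h9 (by positivity)
        have h11 : K * (1 / (p : ℝ)) * 2 ≤ K * (1 / 2) * 2 :=
          mul_le_mul_of_nonneg_right (mul_le_mul_of_nonneg_left h4 hK0) (by norm_num)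
        linarith
      have h9 := (Finset.sum_le_sum h5).trans h8
      linarith
    have fgood : ∀ p ∈ P, ¬ (p : ℤ) ∣ 3 * k → 1 + ∑ j ∈ Icc 1 x, f (p ^ j) ≤
        Real.exp (6 * ((p : ℝ) ^ 2)⁻¹) := by
      intro p hp hpk
      obtain ⟨h3, h4⟩ := hq p hp
      have hpp := hPp p hp
      have h5 : ∑ j ∈ Icc 1 x, f (p ^ j) ≤ ∑ j ∈ Icc 2 x, 3 * (1 / (p : ℝ)) ^ j := by
        have h6 : ∑ j ∈ Icc 1 x, f (p ^ j) = ∑ j ∈ Icc 2 x, f (p ^ j) := by
          symm
          refine Finset.sum_subset (Finset.Icc_subset_Icc_left (by norm_num)) ?_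
          intro j hj hj'
          rw [Finset.mem_Icc] at hj hj'
          have h7 : j = 1 := by omega
          rw [h7, hf]
          dsimp only
          rw [if_neg]
          intro h8
          have h9 := h8 p hpp (by rw [pow_one]) hpk
          have h10 := (Nat.pow_dvd_pow_iff_le_right hpp.one_lt).1 h9
          omega
        rw [h6]
        refine Finset.sum_le_sum fun j hj => ?_
        rw [Finset.mem_Icc] at hj
        obtain ⟨h7, h8⟩ := (hPP k hk0 p j hpp (by omega)).1 hpk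
        have h9 : ((R k (p ^ j)).card : ℝ) ≤ 3 := by exact_mod_cast h7.trans h8
        rw [hf]
        dsimp only
        split_ifs
        · rw [one_div, inv_pow, ← div_eq_mul_inv]
          push_cast
          exact div_le_div_of_nonneg_right h9 (by positivity)
        · positivity
      have h6 : ∑ j ∈ Icc 2 x, 3 * (1 / (p : ℝ)) ^ j ≤ 6 * ((p : ℝ) ^ 2)⁻¹ := by
        have e1 : Icc 2 x = Ico 2 (x + 1) := by
          ext j
          rw [Finset.mem_Icc, Finset.mem_Ico]
          omega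
        rw [e1, Finset.sum_Ico_eq_sum_range]
        have e2 : ∑ i ∈ range (x + 1 - 2), 3 * (1 / (p : ℝ)) ^ (2 + i) =
            3 * (1 / (p : ℝ)) ^ 2 * ∑ i ∈ range (x + 1 - 2), (1 / (p : ℝ)) ^ i := by
          rw [Finset.mul_sum]
          refine Finset.sum_congr rfl fun i _ => ?_
          rw [pow_add]
          ring
        rw [e2]
        have h9 := geo _ h3 h4 (x + 1 - 2)
        have h10 : 3 * (1 / (p : ℝ)) ^ 2 * ∑ i ∈ range (x + 1 - 2), (1 / (p : ℝ)) ^ i ≤
            3 * (1 / (p : ℝ)) ^ 2 * 2 := mul_le_mul_of_nonneg_left h9 (by positivity)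
        have h11 : 3 * (1 / (p : ℝ)) ^ 2 * 2 = 6 * ((p : ℝ) ^ 2)⁻¹ := by
          rw [one_div, inv_pow]
          ring
        linarith
      have h7 := Real.add_one_le_exp (6 * ((p : ℝ) ^ 2)⁻¹)
      linarith
    -- the product
    have hprod : ∏ p ∈ P, (1 + ∑ j ∈ Icc 1 x, f (p ^ j)) ≤
        ∏ p ∈ P, ((if (p : ℤ) ∣ 3 * k then 1 + K else 1) * Real.exp (6 * ((p : ℝ) ^ 2)⁻¹)) := by
      refine Finset.prod_le_prod (fun p _ => ?_) fun p hp => ?_
      · have : 0 ≤ ∑ j ∈ Icc 1 x, f (p ^ j) := Finset.sum_nonneg fun j _ => hf0 _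
        linarith
      · by_cases hpk : (p : ℤ) ∣ 3 * k
        · rw [if_pos hpk]
          refine (fbad p hp hpk).trans ?_
          have h3 : (1 : ℝ) ≤ Real.exp (6 * ((p : ℝ) ^ 2)⁻¹) := Real.one_le_exp (by positivity)
          exact le_mul_of_one_le_right (by linarith) h3
        · rw [if_neg hpk, one_mul]
          exact fgood p hp hpk
    refine hprod.trans ?_
    rw [Finset.prod_mul_distrib, hB]
    refine mul_le_mul ?_ ?_ (Finset.prod_nonneg fun p _ => (Real.exp_pos _).le) (by positivity)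
    · rw [← Finset.prod_filter, Finset.prod_const]
      refine pow_le_pow_right₀ (by linarith) (Finset.card_le_card ?_)
      intro p hp
      rw [Finset.mem_filter] at hp
      rw [hPk, Nat.mem_primeFactors]
      refine ⟨hPp p hp.1, (dvd_iff k p).1 hp.2, ?_⟩
      have := Int.natAbs_pos.2 hk0
      omega
    · rw [← Real.exp_sum]
      apply Real.exp_le_exp.2
      rw [← Finset.mul_sum]
      have h3 : ∑ p ∈ P, ((p : ℝ) ^ 2)⁻¹ ≤ ∑ p ∈ Ioo 0 (x + 1), ((p : ℝ) ^ 2)⁻¹ := by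
        refine Finset.sum_le_sum_of_subset_of_nonneg ?_ fun p _ _ => by positivity
        intro p hp
        rw [hP, Finset.mem_filter, Finset.mem_Icc] at hp
        rw [Finset.mem_Ioo]
        omega
      have h4 : ∑ p ∈ Ioo 0 (x + 1), ((p : ℝ) ^ 2)⁻¹ ≤ 2 / ((0 : ℕ) + 1) := sum_Ioo_inv_sq_le 0 (x + 1)
      norm_num at h4
      linarith
  -- the decomposition
  refine ⟨C * B, by positivity, fun x => ?_⟩
  have hdec : ∀ s : ℕ, ∃ t s₁ : ℕ, s ≠ 0 → s = t * s₁ ∧ t.Coprime s₁ ∧ Squarefree s₁ ∧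
      s₁.Coprime (3 * k.natAbs) ∧ TT k t := by
    intro s
    by_cases hs : s = 0
    · exact ⟨0, 0, fun h => absurd hs h⟩
    · obtain ⟨t, s₁, h⟩ := decomp k s hs
      exact ⟨t, s₁, fun _ => h⟩
  choose τ σ hτσ using hdec
  set Q : ℕ → Finset ℕ := fun t => (Icc 1 (x / t)).filter
    (fun s : ℕ => Squarefree s ∧ s.Coprime (3 * k.natAbs)) with hQ
  have hstep : ∑ s ∈ Icc 1 x, ((R k s).card : ℝ) ≤
      ∑ t ∈ (Icc 1 x).filter (TT k), ∑ s₁ ∈ Q t, ((R k t).card : ℝ) * ((R k s₁).card : ℝ) := by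
    rw [Finset.sum_sigma' ((Icc 1 x).filter (TT k)) Q
      (fun t s₁ => ((R k t).card : ℝ) * ((R k s₁).card : ℝ))]
    have h1 : ∑ s ∈ Icc 1 x, ((R k s).card : ℝ) =
        ∑ s ∈ Icc 1 x, (fun z : (_ : ℕ) × ℕ => ((R k z.1).card : ℝ) * ((R k z.2).card : ℝ))
          ⟨τ s, σ s⟩ := by
      refine Finset.sum_congr rfl fun s hs => ?_
      rw [Finset.mem_Icc] at hs
      obtain ⟨e1, e2, _, _, _⟩ := hτσ s (by omega)
      have hpos : 0 < τ s * σ s := by rw [← e1]; omega
      have h2 := (hCRT k (τ s) (σ s) (Nat.pos_of_mul_pos_right hpos) (Nat.pos_of_mul_pos_left hpos) e2).1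
      dsimp only
      rw [← e1] at h2
      rw [h2]
      push_cast
      rfl
    rw [h1, ← Finset.sum_image (s := Icc 1 x) (g := fun s => (⟨τ s, σ s⟩ : (_ : ℕ) × ℕ))
      (f := fun z : (_ : ℕ) × ℕ => ((R k z.1).card : ℝ) * ((R k z.2).card : ℝ))]
    · refine Finset.sum_le_sum_of_subset_of_nonneg ?_ fun z _ _ => by positivity
      intro z hz
      rw [Finset.mem_image] at hz
      obtain ⟨s, hs, rfl⟩ := hz
      rw [Finset.mem_Icc] at hs
      obtain ⟨e1, e2, e3, e4, e5⟩ := hτσ s (by omega)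
      have hpos : 0 < τ s * σ s := by rw [← e1]; omega
      have ht : 0 < τ s := Nat.pos_of_mul_pos_right hpos
      have hs₁ : 0 < σ s := Nat.pos_of_mul_pos_left hpos
      rw [Finset.mem_sigma, Finset.mem_filter, Finset.mem_Icc]
      refine ⟨⟨⟨ht, ?_⟩, e5⟩, ?_⟩
      · have : τ s ≤ τ s * σ s := Nat.le_mul_of_pos_right _ hs₁
        dsimp only
        omega
      · rw [hQ]
        dsimp only
        rw [Finset.mem_filter, Finset.mem_Icc]
        refine ⟨⟨hs₁, ?_⟩, e3, e4⟩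
        rw [Nat.le_div_iff_mul_le ht, mul_comm, ← e1]
        exact hs.2
    · intro s hs s' hs' h
      rw [Finset.mem_coe, Finset.mem_Icc] at hs hs'
      have h2 : (⟨τ s, σ s⟩ : (_ : ℕ) × ℕ) = ⟨τ s', σ s'⟩ := h
      have e1 := (hτσ s (by omega)).1
      have e1' := (hτσ s' (by omega)).1
      have h3 : τ s = τ s' := congrArg Sigma.fst h2
      have h4 : σ s = σ s' := by
        have := congrArg (fun z : (_ : ℕ) × ℕ => z.2) h2
        exact this
      rw [e1, e1', h3, h4]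
  refine hstep.trans ?_
  have hin : ∀ t ∈ (Icc 1 x).filter (TT k),
      ∑ s₁ ∈ Q t, ((R k t).card : ℝ) * ((R k s₁).card : ℝ) ≤ C * x * f t := by
    intro t ht
    rw [Finset.mem_filter, Finset.mem_Icc] at ht
    rw [← Finset.mul_sum]
    have h1 := hSQ (x / t)
    have ht0 : (0 : ℝ) < t := by exact_mod_cast ht.1.1
    have h2 : ((x / t : ℕ) : ℝ) ≤ (x : ℝ) / t := Nat.cast_div_le
    have h3 : ∑ s₁ ∈ Q t, ((R k s₁).card : ℝ) ≤ C * ((x : ℝ) / t) :=
      h1.trans (mul_le_mul_of_nonneg_left h2 hC.le)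
    have h4 : ((R k t).card : ℝ) * ∑ s₁ ∈ Q t, ((R k s₁).card : ℝ) ≤
        ((R k t).card : ℝ) * (C * ((x : ℝ) / t)) :=
      mul_le_mul_of_nonneg_left h3 (Nat.cast_nonneg _)
    refine h4.trans (le_of_eq ?_)
    rw [hf]
    dsimp only
    rw [if_pos ht.2]
    ring
  refine (Finset.sum_le_sum hin).trans ?_
  rw [← Finset.mul_sum]
  have h5 : ∑ t ∈ (Icc 1 x).filter (TT k), f t ≤ ∑ t ∈ Icc 1 x, f t :=
    Finset.sum_le_sum_of_subset_of_nonneg (Finset.filter_subset _ _) fun t _ _ => hf0 t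
  have h6 := h5.trans (hT x)
  calc C * x * ∑ t ∈ (Icc 1 x).filter (TT k), f t ≤ C * x * B :=
        mul_le_mul_of_nonneg_left h6 (by positivity)
    _ = C * B * x := by ring

end Pool.Agent.Helper47.CU
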